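import Pool.Agent.H71.O2.K1
import Pool.Agent.H38.O2.Main

set_option autoImplicit false

/-!
End game for finite simple automorphic loops of odd order: if `th(a, b)` fixes `b` for all `a`, `b`
then the loop is Moufang, and its commutators are in a nucleus (MP_52f71e_al, S01468).
-/

namespace ALoop

open Equiv

variable {Q : Type*} {G : Subgroup (Perm Q)} {L : Q → Perm Q} {J : Perm Q} {e : Q}

/-- `a(x, y)` -/
def Aa (L : Q → Perm Q) (x y : Q) : Perm Q := (L (L x y))⁻¹ * L x * L y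

namespace AL0

theorem eg_a (h : AL0 G L J e) (hK : ∀ a b, Th L J a b b = b) (a b : Q) : Th L J a b a = a := by
  have h1 := hK (J b) (J a)
  rw [h.Th_inv, Perm.inv_eq_iff_eq] at h1
  have h2 := h.fixJ (h.Th_mem a b) (h.Th_e a b) h1.symm
  rwa [h.JJ] at h2

theorem eg_right (h : AL0 G L J e) (hK : ∀ a b, Th L J a b b = b) (a b : Q) :
    Th L J a (J b) = (Th L J a b)⁻¹ := by
  have hT : Th L J a b * Tx L J b = Tx L J b * Th L J a b := by
    unfold Tx
    have c1 := h.comL (h.Th_mem a b) (h.Th_e a b) (hK a b)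
    have c2 := h.comR (h.Th_mem a b) (h.Th_e a b) (hK a b)
    calc Th L J a b * (L b * (Rt L J b)⁻¹) = (Th L J a b * L b) * (Rt L J b)⁻¹ := by group
      _ = L b * (Rt L J b)⁻¹ * (Rt L J b * Th L J a b) * (Rt L J b)⁻¹ := by rw [c1]; group
      _ = L b * (Rt L J b)⁻¹ * Th L J a b := by rw [← c2]; group
      _ = _ := by group
  have h1 := h.K1 a b
  rw [hT] at h1
  rw [← mul_left_cancel h1, inv_inv]

theorem eg_swap (h : AL0 G L J e) (hK : ∀ a b, Th L J a b b = b) (a b : Q) :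
    Th L J b a = (Th L J a b)⁻¹ := by
  have h1 := h.Th_inv a (J b)
  have h2 := h.eg_right hK a b
  have h3 := h.eg_right hK b a
  rw [h.JJ, h3, h2, inv_inv] at h1
  rw [← h1, inv_inv]

theorem eg_left (h : AL0 G L J e) (hK : ∀ a b, Th L J a b b = b) (a b : Q) :
    Th L J (J a) b = (Th L J a b)⁻¹ := by
  rw [h.eg_swap hK b (J a), h.eg_right hK b a, h.eg_swap hK a b, inv_inv]

/-- right inverse property -/
theorem eg_ipR (h : AL0 G L J e) (hK : ∀ a b, Th L J a b b = b) (b : Q) :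
    Rt L J b * Rt L J (J b) = 1 := by
  have key : ∀ a, Rt L J b * Rt L J (J b) * L a = L a * (Rt L J b * Rt L J (J b)) := by
    intro a
    have c1 := h.comR (h.Th_mem a b) (h.Th_e a b) (h.fixJ (h.Th_mem a b) (h.Th_e a b) (hK a b))
    have e1 : (L a)⁻¹ * Rt L J b * L a = Rt L J b * (Th L J a b)⁻¹ := by unfold Th; group
    have e2 : (L a)⁻¹ * Rt L J (J b) * L a = Rt L J (J b) * (Th L J a (J b))⁻¹ := by
      unfold Th; group
    rw [h.eg_right hK a b, inv_inv, ← c1] at e2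
    calc Rt L J b * Rt L J (J b) * L a =
        L a * (((L a)⁻¹ * Rt L J b * L a) * ((L a)⁻¹ * Rt L J (J b) * L a)) := by group
      _ = L a * (Rt L J b * (Th L J a b)⁻¹ * (Th L J a b * Rt L J (J b))) := by rw [e1, e2]
      _ = L a * (Rt L J b * Rt L J (J b)) := by group
  ext x
  have h1 := congrArg (fun f : Perm Q => f e) (key x)
  simp only [Perm.mul_apply] at h1
  rw [h.Le, h.Rt_e, h.Rt_app b (J b), h.JL, h.Le] at h1
  rw [Perm.mul_apply, h1, Perm.one_apply]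

theorem eg_R (h : AL0 G L J e) (hK : ∀ a b, Th L J a b b = b) (b : Q) :
    (Rt L J b)⁻¹ = Rt L J (J b) := inv_eq_of_mul_eq_one_right (h.eg_ipR hK b)

theorem eg_L (h : AL0 G L J e) (hK : ∀ a b, Th L J a b b = b) (b : Q) :
    (L b)⁻¹ = L (J b) := by
  have h1 := h.JRJ b
  rw [← h1]
  have h2 : L b = J * Rt L J (J b) * J := by rw [h.JRJ, h.JJ]
  have h3 : Rt L J b = (Rt L J (J b))⁻¹ := by rw [h.eg_R hK, h.JJ]
  rw [h3, h2, mul_inv_rev, mul_inv_rev, h.Jinv]; group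

/-- `(x b) b⁻¹ = x` -/
theorem eg_rr (h : AL0 G L J e) (hK : ∀ a b, Th L J a b b = b) (x b : Q) :
    L (L x b) (J b) = x := by
  rw [← h.Rt_app (J b), ← h.Rt_app b x, ← h.eg_R hK, inv_apply']

theorem eg_rr' (h : AL0 G L J e) (hK : ∀ a b, Th L J a b b = b) (x b : Q) :
    L (L x (J b)) b = x := by
  have h1 := h.eg_rr hK x (J b)
  rwa [h.JJ] at h1

theorem eg_ll (h : AL0 G L J e) (hK : ∀ a b, Th L J a b b = b) (b x : Q) :
    L b (L (J b) x) = x := by
  rw [← h.eg_L hK, apply_inv']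

theorem eg_ll' (h : AL0 G L J e) (hK : ∀ a b, Th L J a b b = b) (b x : Q) :
    L (J b) (L b x) = x := by
  rw [← h.eg_L hK, inv_apply']

theorem Aa_mem (h : AL0 G L J e) (x y : Q) : Aa L x y ∈ G :=
  G.mul_mem (G.mul_mem (G.inv_mem (h.memL _)) (h.memL _)) (h.memL _)

theorem Aa_e (h : AL0 G L J e) (x y : Q) : Aa L x y e = e := by
  unfold Aa
  simp only [Perm.mul_apply]
  rw [h.Le, Perm.inv_eq_iff_eq, h.Le]

theorem Aa_x (h : AL0 G L J e) (x y : Q) : Aa L x y x = x := by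
  unfold Aa
  simp only [Perm.mul_apply]
  rw [Perm.inv_eq_iff_eq]
  have h1 := congrArg (fun f : Perm Q => f y) (h.flex x)
  simp only [Perm.mul_apply] at h1
  rw [h.Rt_app, h.Rt_app] at h1
  exact h1

theorem Aa_y (h : AL0 G L J e) (hK : ∀ a b, Th L J a b b = b) (x y : Q) : Aa L x y y = y := by
  have h1 := hK x y
  unfold Th at h1
  simp only [Perm.mul_apply] at h1
  rw [Perm.inv_eq_iff_eq, Perm.inv_eq_iff_eq, h.Rt_app, h.Rt_app] at h1
  unfold Aa
  simp only [Perm.mul_apply]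
  rw [Perm.inv_eq_iff_eq]
  exact h1

theorem autG (h : AL0 G L J e) {g : Perm Q} (hg : g ∈ G) (he : g e = e) (x y : Q) :
    g (L x y) = L (g x) (g y) := by
  have h1 := h.equi g hg he x
  rw [mul_inv_eq_iff_eq_mul] at h1
  have h2 := congrArg (fun p : Perm Q => p y) h1
  simpa using h2

theorem Aa_inv (h : AL0 G L J e) (hK : ∀ a b, Th L J a b b = b) (x y : Q) :
    Aa L (J y) (J x) = (Aa L x y)⁻¹ := by
  have hfix : Aa L x y (L x y) = L x y := by
    rw [h.autG (h.Aa_mem x y) (h.Aa_e x y), h.Aa_x, h.Aa_y hK]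
  have hfixJ := h.fixJ (h.Aa_mem x y) (h.Aa_e x y) hfix
  have c1 := h.comL (h.Aa_mem x y) (h.Aa_e x y) hfixJ
  have e1 : L (L (J y) (J x)) = L (J (L x y)) := by rw [h.aaip]
  have e2 : Aa L (J y) (J x) = (L (J (L x y)))⁻¹ * (L y)⁻¹ * (L x)⁻¹ := by
    unfold Aa
    rw [e1, h.eg_L hK y, h.eg_L hK x]
  have e3 : (Aa L x y)⁻¹ = (L y)⁻¹ * (L x)⁻¹ * (L (J (L x y)))⁻¹ := by
    have h1 := h.eg_L hK (J (L x y))
    rw [h.JJ] at h1
    rw [h1]
    unfold Aa; group
  have e4 : (L y)⁻¹ * (L x)⁻¹ = (Aa L x y)⁻¹ * L (J (L x y)) := by rw [e3]; group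
  calc Aa L (J y) (J x) = (L (J (L x y)))⁻¹ * ((L y)⁻¹ * (L x)⁻¹) := by rw [e2]; group
    _ = (L (J (L x y)))⁻¹ * ((Aa L x y)⁻¹ * L (J (L x y))) := by rw [e4]
    _ = (L (J (L x y)))⁻¹ * ((Aa L x y)⁻¹ * (L (J (L x y)) * Aa L x y) * (Aa L x y)⁻¹) := by group
    _ = (Aa L x y)⁻¹ := by rw [← c1]; group

/-- `R_z R_y = R_(y z) a(y, z)⁻¹` -/
theorem RR (h : AL0 G L J e) (hK : ∀ a b, Th L J a b b = b) (y z : Q) :
    Rt L J z * Rt L J y = Rt L J (L y z) * (Aa L y z)⁻¹ := by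
  rw [← h.Aa_inv hK y z]
  have h1 := h.comJ _ (h.Aa_mem (J z) (J y)) (h.Aa_e (J z) (J y))
  have h2 : Aa L (J z) (J y) = J * Aa L (J z) (J y) * J := by
    rw [← h1, mul_assoc, h.JJ1, mul_one]
  rw [h2]
  have e1 : L (L (J z) (J y)) = J * Rt L J (L y z) * J := by rw [h.JRJ, h.aaip]
  have e2 : L (J z) = J * Rt L J z * J := (h.JRJ z).symm
  have e3 : L (J y) = J * Rt L J y * J := (h.JRJ y).symm
  unfold Aa
  rw [e1, e2, e3, mul_inv_rev, mul_inv_rev, h.Jinv]
  have hJJ := h.JJ1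
  calc Rt L J z * Rt L J y = Rt L J (L y z) * (Rt L J (L y z))⁻¹ * Rt L J z * Rt L J y := by group
    _ = Rt L J (L y z) * 1 * (Rt L J (L y z))⁻¹ * 1 * Rt L J z * 1 * Rt L J y * 1 := by group
    _ = Rt L J (L y z) * (J * J) * (Rt L J (L y z))⁻¹ * (J * J) * Rt L J z * (J * J) * Rt L J y *
        (J * J) := by rw [hJJ]
    _ = _ := by group

/-- (A) -/
theorem eg_A (h : AL0 G L J e) (hK : ∀ a b, Th L J a b b = b) (x y w : Q) :
    (Aa L x y)⁻¹ w = (Th L J x (L (J y) w))⁻¹ w := by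
  obtain ⟨z, hz⟩ : ∃ z, z = L (J y) w := ⟨_, rfl⟩
  have hw : w = L y z := by rw [hz, h.eg_ll hK]
  rw [← hz, hw]
  have ht : (Th L J x z)⁻¹ ∈ G := G.inv_mem (h.Th_mem x z)
  have hte : (Th L J x z)⁻¹ e = e := by rw [Perm.inv_eq_iff_eq, h.Th_e]
  have htz : (Th L J x z)⁻¹ z = z := by rw [Perm.inv_eq_iff_eq, hK]
  have ha : (Aa L x y)⁻¹ ∈ G := G.inv_mem (h.Aa_mem x y)
  have hae : (Aa L x y)⁻¹ e = e := by rw [Perm.inv_eq_iff_eq, h.Aa_e]
  have hay : (Aa L x y)⁻¹ y = y := by rw [Perm.inv_eq_iff_eq, h.Aa_y hK]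
  rw [h.autG ht hte, h.autG ha hae, htz, hay]
  -- cancel `x`
  apply (L x).injective
  have e1 : L x (L y ((Aa L x y)⁻¹ z)) = L (L x y) z := by
    have h1 : L x * L y * (Aa L x y)⁻¹ = L (L x y) := by unfold Aa; group
    rw [← h1]; rfl
  have e2 : L x (L ((Th L J x z)⁻¹ y) z) = L (L x y) z := by
    have h1 : L x * Rt L J z * (Th L J x z)⁻¹ = Rt L J z * L x := by unfold Th; group
    have h2 := congrArg (fun f : Perm Q => f y) h1
    simp only [Perm.mul_apply] at h2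
    rw [h.Rt_app, h.Rt_app] at h2
    exact h2
  rw [e1, e2]

/-- (B) -/
theorem eg_B (h : AL0 G L J e) (hK : ∀ a b, Th L J a b b = b) (y z w : Q) :
    Aa L y z w = Th L J (L w (J y)) z w := by
  obtain ⟨x, hx⟩ : ∃ x, x = L w (J y) := ⟨_, rfl⟩
  have hw : w = L x y := by rw [hx, h.eg_rr' hK]
  rw [← hx, hw]
  rw [h.autG (h.Th_mem x z) (h.Th_e x z), h.eg_a hK, h.autG (h.Aa_mem y z) (h.Aa_e y z), h.Aa_x]
  -- cancel `z`
  apply (Rt L J z).injective
  have e1 : Rt L J z (L (Aa L y z x) y) = L x (L y z) := by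
    have h1 := h.RR hK y z
    have h2 : Rt L J z * Rt L J y * Aa L y z = Rt L J (L y z) := by rw [h1]; group
    have h3 := congrArg (fun f : Perm Q => f x) h2
    simp only [Perm.mul_apply] at h3
    rw [h.Rt_app y, h.Rt_app (L y z)] at h3
    exact h3
  have e2 : Rt L J z (L x (Th L J x z y)) = L x (L y z) := by
    have h1 : Rt L J z * L x * Th L J x z = L x * Rt L J z := by unfold Th; group
    have h2 := congrArg (fun f : Perm Q => f y) h1
    simp only [Perm.mul_apply] at h2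
    rw [h2, h.Rt_app]
  rw [e1, e2]

/-- (C) -/
theorem eg_C (h : AL0 G L J e) (hK : ∀ a b, Th L J a b b = b) (x y w : Q) :
    (Aa L x y)⁻¹ w = Th L J x (L w y) w := by
  have h1 := h.eg_B hK (J y) (J x) w
  rw [h.Aa_inv hK, h.JJ, h.eg_right hK, ← h.eg_swap hK] at h1
  exact h1

theorem eg_D (h : AL0 G L J e) (hK : ∀ a b, Th L J a b b = b) (x y w : Q) :
    Th L J x (L w (L w y)) w = Th L J x y w := by
  have h1 := h.eg_A hK x (L w y) w
  have h2 := h.eg_C hK x (L w y) w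
  rw [h1] at h2
  rw [← h2]
  have h3 : L (J (L w y)) w = J y := by
    rw [h.aaip, h.eg_rr' hK]
  rw [h3, h.eg_right hK, inv_inv]

theorem eg_pow (h : AL0 G L J e) (hK : ∀ a b, Th L J a b b = b) (w : Q) (k : ℕ) :
    L (((L w) ^ k) e) = (L w) ^ k := by
  induction k with
  | zero =>
    ext y
    have h2 := h.Rt_app y e
    rw [h.Rt_e] at h2
    simp only [pow_zero, Perm.one_apply]
    exact h2.symm
  | succ k ih =>
    obtain ⟨u, hu⟩ : ∃ u, u = ((L w) ^ k) e := ⟨_, rfl⟩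
    rw [← hu] at ih
    have hA : Aa L u w = 1 := by
      ext v
      rw [h.eg_B hK]
      obtain ⟨x, hx⟩ : ∃ x, x = L v (J u) := ⟨_, rfl⟩
      have hv : v = L x u := by rw [hx, h.eg_rr' hK]
      rw [← hx, hv, h.autG (h.Th_mem x w) (h.Th_e x w), h.eg_a hK, Perm.one_apply]
      have c1 : Commute (Th L J x w) (L w) := h.comL (h.Th_mem x w) (h.Th_e x w) (hK x w)
      have c2 := (c1.pow_right k).eq
      have c3 := congrArg (fun f : Perm Q => f e) c2
      simp only [Perm.mul_apply] at c3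
      rw [h.Th_e, ← hu] at c3
      rw [c3]
    have h1 : L u * L w = L (L u w) := by
      calc L u * L w = L (L u w) * Aa L u w := by unfold Aa; group
        _ = _ := by rw [hA, mul_one]
    have h2 : ((L w) ^ (k + 1)) e = L u w := by
      rw [pow_succ, Perm.mul_apply, h.Le, ih]
    rw [h2, ← h1, ih, pow_succ]

theorem eg_odd [Finite Q] (h : AL0 G L J e) (hK : ∀ a b, Th L J a b b = b)
    (hodd : Odd (Nat.card Q)) (w : Q) : Odd (orderOf (L w)) := by
  classical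
  by_contra hev
  rw [Nat.not_odd_iff_even] at hev
  obtain ⟨k, hk⟩ := hev
  have hpos : 0 < orderOf (L w) := orderOf_pos _
  obtain ⟨g, hg⟩ : ∃ g, g = (L w) ^ k := ⟨_, rfl⟩
  have hgg : g ^ 2 = 1 := by
    rw [hg, ← pow_mul, mul_two, ← hk, pow_orderOf_eq_one]
  have hg1 : g ≠ 1 := by
    intro h1
    rw [hg] at h1
    have h2 : orderOf (L w) ∣ k := orderOf_dvd_of_pow_eq_one h1
    have h3 := Nat.le_of_dvd (by omega) h2
    omega
  have hfree : ∀ x, g x ≠ x := by
    intro x hx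
    apply hg1
    have h1 := h.eg_pow hK w k
    rw [← hg] at h1
    have h2 : Rt L J x (g e) = Rt L J x e := by rw [h.Rt_app, h1, hx, h.Rt_e]
    have h3 := (Rt L J x).injective h2
    rw [h3] at h1
    rw [← h1]
    ext y
    have h4 := h.Rt_app y e
    rw [h.Rt_e] at h4
    exact h4.symm
  have := Fintype.ofFinite Q
  have h5 := Equiv.Perm.two_dvd_card_support (σ := g) hgg
  have h6 : g.support = Finset.univ := by
    ext x
    simp [Equiv.Perm.mem_support, hfree x]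
  rw [h6, Finset.card_univ, ← Nat.card_eq_fintype_card] at h5
  rcases hodd with ⟨m, hm⟩
  omega

theorem eg_F [Finite Q] (h : AL0 G L J e) (hK : ∀ a b, Th L J a b b = b)
    (hodd : Odd (Nat.card Q)) (x y w : Q) : Th L J x (L w y) w = Th L J x y w := by
  have h1 : ∀ k : ℕ, ∀ y, Th L J x (((L w) ^ (2 * k)) y) w = Th L J x y w := by
    intro k
    induction k with
    | zero => intro y; simp
    | succ k ih =>
      intro y
      have e1 : ((L w) ^ (2 * (k + 1))) y = L w (L w (((L w) ^ (2 * k)) y)) := by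
        rw [show 2 * (k + 1) = 1 + (1 + 2 * k) by ring, pow_add, pow_add, pow_one]
        rfl
      rw [e1, h.eg_D hK, ih]
  obtain ⟨m, hm⟩ := h.eg_odd hK hodd w
  have h2 := h1 (m + 1) y
  have h3 : (L w) ^ (2 * (m + 1)) = L w := by
    rw [show 2 * (m + 1) = orderOf (L w) + 1 by omega, pow_succ, pow_orderOf_eq_one, one_mul]
  rw [h3] at h2
  exact h2

theorem eg_main [Finite Q] (h : AL0 G L J e) (hK : ∀ a b, Th L J a b b = b)
    (hodd : Odd (Nat.card Q)) (x y : Q) : (Aa L x y)⁻¹ = Th L J x y := by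
  ext w
  rw [h.eg_C hK, h.eg_F hK hodd]

/-- Moufang -/
theorem eg_mou [Finite Q] (h : AL0 G L J e) (hK : ∀ a b, Th L J a b b = b)
    (hodd : Odd (Nat.card Q)) (x p : Q) :
    L (L x p) * Rt L J x = L x * Rt L J x * L p := by
  have h1 := h.eg_main hK hodd x p
  have h2 : L (L x p) = L x * L p * (Aa L x p)⁻¹ := by unfold Aa; group
  have c1 := h.comR (h.Th_mem x p) (h.Th_e x p) (h.eg_a hK x p)
  have h3 := h.eg_swap hK p x
  rw [h2, h1, mul_assoc, c1, h3]
  unfold Th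
  group

theorem eg_nuc [Finite Q] (h : AL0 G L J e) (hK : ∀ a b, Th L J a b b = b)
    (hodd : Odd (Nat.card Q)) (x y : Q) :
    ∃ c, L c (L x y) = L y x ∧ ∀ p, L p * Rt L J c = Rt L J c * L p := by
  obtain ⟨V, hV⟩ : ∃ V, V = (Rt L J (L x y))⁻¹ * Rt L J x * Rt L J y := ⟨_, rfl⟩
  obtain ⟨A, hA⟩ : ∃ A, A = Aa L x y := ⟨_, rfl⟩
  obtain ⟨W, hW⟩ : ∃ W, W = (L (L x y) * Rt L J (L x y))⁻¹ * (L x * Rt L J x) * (L y * Rt L J y) :=
    ⟨_, rfl⟩
  have hm : ∀ x p q, (L x * Rt L J x) (L p q) = L (L x p) (Rt L J x q) := by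
    intro x p q
    have h1 := congrArg (fun f : Perm Q => f q) (h.eg_mou hK hodd x p)
    simp only [Perm.mul_apply] at h1 ⊢
    exact h1.symm
  have hAG : A ∈ G := by rw [hA]; exact h.Aa_mem x y
  have hAe : A e = e := by rw [hA]; exact h.Aa_e x y
  have key : ∀ p q, W (L p q) = L (A p) (V q) := by
    intro p q
    rw [hW, Perm.mul_apply, Perm.mul_apply, Perm.inv_eq_iff_eq, hm, hm, hm]
    have e1 : L (L x y) (A p) = L x (L y p) := by
      rw [hA]
      have : L (L x y) * Aa L x y = L x * L y := by unfold Aa; group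
      have h1 := congrArg (fun f : Perm Q => f p) this
      exact h1
    have e2 : Rt L J (L x y) (V q) = Rt L J x (Rt L J y q) := by
      rw [hV, Perm.mul_apply, Perm.mul_apply, apply_inv']
    rw [e1, e2]
  have Le1 : ∀ q, L e q = q := by
    intro q
    have h2 := h.Rt_app q e
    rw [h.Rt_e] at h2
    exact h2.symm
  have hWV : ∀ q, W q = V q := by
    intro q
    have h1 := key e q
    rwa [Le1, hAe, Le1] at h1
  obtain ⟨c, hc⟩ : ∃ c, c = V e := ⟨_, rfl⟩
  have hVp : ∀ p, V p = L (A p) c := by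
    intro p
    have h1 := key p e
    rw [h.Le, hWV, ← hc] at h1
    exact h1
  refine ⟨c, ?_, ?_⟩
  · rw [hc, hV, ← h.Rt_app (L x y), Perm.mul_apply, Perm.mul_apply, apply_inv', h.Rt_e, h.Rt_app]
  · intro p
    ext q
    obtain ⟨p', hp'⟩ : ∃ p', p' = A⁻¹ p := ⟨_, rfl⟩
    obtain ⟨q', hq'⟩ : ∃ q', q' = A⁻¹ q := ⟨_, rfl⟩
    have hp : A p' = p := by rw [hp', apply_inv']
    have hq : A q' = q := by rw [hq', apply_inv']
    have h1 := key p' q'
    rw [hWV, hVp, hVp, h.autG hAG hAe, hp, hq] at h1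
    rw [Perm.mul_apply, Perm.mul_apply, h.Rt_app, h.Rt_app]
    exact h1.symm

end AL0

namespace AL

/-- the centraliser of all left translations in `G` -/
theorem assoc_of_cen (h : AL G L J e) {c : Q} (hc : c ≠ e)
    (hcc : ∀ p, L p * Rt L J c = Rt L J c * L p) : Assoc L := by
  have h0 := h.al0
  let M : Subgroup (Perm Q) :=
    { carrier := {m | m ∈ G ∧ ∀ x, m * L x = L x * m}
      mul_mem' := by
        rintro a b ⟨ha, ha'⟩ ⟨hb, hb'⟩
        refine ⟨G.mul_mem ha hb, fun x => ?_⟩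
        rw [mul_assoc, hb', ← mul_assoc, ha', mul_assoc]
      one_mem' := ⟨G.one_mem, fun x => by group⟩
      inv_mem' := by
        rintro a ⟨ha, ha'⟩
        refine ⟨G.inv_mem ha, fun x => ?_⟩
        have := ha' x
        calc a⁻¹ * L x = a⁻¹ * (L x * a) * a⁻¹ := by group
          _ = L x * a⁻¹ := by rw [← this]; group }
  have hMmem : ∀ m, m ∈ M ↔ m ∈ G ∧ ∀ x, m * L x = L x * m := fun m => Iff.rfl
  have hM : Nm G M := by
    intro g hg m hm
    rw [hMmem] at hm ⊢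
    obtain ⟨hm1, hm2⟩ := hm
    obtain ⟨k1, k2⟩ := h.fix_part hg
    obtain ⟨k, hk⟩ : ∃ k, k = (L (g e))⁻¹ * g := ⟨_, rfl⟩
    rw [← hk] at k1 k2
    have hgk : g = L (g e) * k := by rw [hk]; group
    have hin : ∀ x, (k * m * k⁻¹) * L x = L x * (k * m * k⁻¹) := by
      intro x
      have h1 := h.equi k k1 k2 (k⁻¹ x)
      rw [show k (k⁻¹ x) = x from k.apply_symm_apply x] at h1
      rw [← h1]
      calc k * m * k⁻¹ * (k * L (k⁻¹ x) * k⁻¹) = k * (m * L (k⁻¹ x)) * k⁻¹ := by group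
        _ = k * (L (k⁻¹ x) * m) * k⁻¹ := by rw [hm2]
        _ = k * L (k⁻¹ x) * k⁻¹ * (k * m * k⁻¹) := by group
    have heq : g * m * g⁻¹ = k * m * k⁻¹ := by
      rw [hgk]
      calc L (g e) * k * m * (L (g e) * k)⁻¹ = (L (g e) * (k * m * k⁻¹)) * (L (g e))⁻¹ := by group
        _ = ((k * m * k⁻¹) * L (g e)) * (L (g e))⁻¹ := by rw [hin]
        _ = k * m * k⁻¹ := by group
    exact ⟨G.mul_mem (G.mul_mem hg hm1) (G.inv_mem hg), fun x => by rw [heq]; exact hin x⟩
  have hMc : Rt L J c ∈ M := by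
    rw [hMmem]
    exact ⟨h0.memR c, fun x => (hcc x).symm⟩
  have hne : M ≠ ⊥ := by
    intro hb
    rw [hb, Subgroup.mem_bot] at hMc
    apply hc
    have h1 := h0.Rt_e c
    rw [hMc, Perm.one_apply] at h1
    exact h1.symm
  intro x y z
  obtain ⟨m, hm, hmz⟩ := h.trans hM hne e z
  rw [hMmem] at hm
  have h1 : ∀ q, m q = L q z := by
    intro q
    have h2 := congrArg (fun f : Perm Q => f e) (hm.2 q)
    simp only [Perm.mul_apply] at h2
    rwa [h.Le, hmz] at h2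
  have h3 := congrArg (fun f : Perm Q => f y) (hm.2 x)
  simp only [Perm.mul_apply] at h3
  rw [h1, h1] at h3
  exact h3

/-- finite simple automorphic loops of odd order in which `th(a, b)` always fixes `b` -/
theorem assoc_of_K7 [Finite Q] (h : AL G L J e) (hodd : Odd (Nat.card Q))
    (hK : ∀ a b, Th L J a b b = b) : Assoc L := by
  have h0 := h.al0
  by_cases hcom : ∀ x y, L x y = L y x
  · apply h.comm_assoc
    intro q
    rw [h0.JLJ]
    ext x
    rw [h0.Rt_app, hcom]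
  · push Not at hcom
    obtain ⟨x, y, hxy⟩ := hcom
    obtain ⟨c, hc1, hc2⟩ := h0.eg_nuc hK hodd x y
    refine h.assoc_of_cen (c := c) ?_ hc2
    intro hce
    rw [hce, h.Le1, Perm.one_apply] at hc1
    exact hxy hc1

end AL

end ALoop
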